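import Mathlib

/-!
# MP_f0fa00_gt: dense subspaces of selectively highly divergent spaces

The Cantor cube `{0,1}^I`, with `I` of the cardinality of the continuum, is selectively highly
divergent, but its dense subspace of all points with countable support (the `Σ`-product) is
sequentially compact, hence not selectively highly divergent.
-/

set_option autoImplicit false

open Set Filter Topology

namespace Pool.Agent.Results.MP_f0fa00_gt.SigmaInCube

/-- `X` is selectively highly divergent (SHD): for every sequence `U` of nonempty open subsets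
there are points `x n ∈ U n` such that no subsequence of `x` converges in `X`. -/
def SHD (X : Type) [TopologicalSpace X] : Prop :=
  ∀ U : ℕ → Set X, (∀ n, IsOpen (U n) ∧ (U n).Nonempty) →
    ∃ x : ℕ → X, (∀ n, x n ∈ U n) ∧
      ∀ φ : ℕ → ℕ, StrictMono φ → ∀ y : X, ¬ Tendsto (x ∘ φ) atTop (𝓝 y)

/-- The index set, of the cardinality of the continuum. -/
abbrev I : Type := Set ℕ × ℝ

/-- The Cantor cube of weight continuum. -/
abbrev Cube : Type := I → Bool

/-- The points of the cube with countable support. -/
def Sigma0 : Set Cube := {x | {i | x i = true}.Countable}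

/-- A nonempty open set of the cube contains all points agreeing with one of its points on some
finite set. -/
theorem exists_finite_agree {U : Set Cube} (hU : IsOpen U) (hne : U.Nonempty) :
    ∃ (z : Cube) (F : Finset I), ∀ x : Cube, (∀ i ∈ F, x i = z i) → x ∈ U := by
  obtain ⟨z, hz⟩ := hne
  obtain ⟨F, u, hu, hsub⟩ := isOpen_pi_iff.1 hU z hz
  refine ⟨z, F, fun x hx => hsub ?_⟩
  intro i hi
  rw [hx i hi]
  exact (hu i hi).2

theorem shd_cube : SHD Cube := by
  classical
  intro U hU
  choose z F hF using fun n => exists_finite_agree (hU n).1 (hU n).2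
  refine ⟨fun n i => if i ∈ F n then z n i else decide (n ∈ i.1), fun n => hF n _ ?_, ?_⟩
  · intro i hi
    simp [hi]
  · intro φ hφ y hy
    let A : Set ℕ := {m | ∃ k, m = φ (2 * k)}
    have hC : (⋃ n, (F n : Set I)).Countable :=
      countable_iUnion fun n => (F n).countable_toSet
    have h1 : {t : ℝ | (A, t) ∈ ⋃ n, (F n : Set I)}.Countable :=
      hC.preimage_of_injOn (f := fun t : ℝ => ((A, t) : I)) (fun a _ b _ h => (Prod.ext_iff.1 h).2)
    obtain ⟨t, ht⟩ : ∃ t : ℝ, (A, t) ∉ ⋃ n, (F n : Set I) := by
      by_contra hcon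
      push Not at hcon
      have : (univ : Set ℝ).Countable := h1.mono fun t _ => hcon t
      exact Cardinal.not_countable_real this
    have ht' : ∀ n, ((A, t) : I) ∉ F n := fun n hn => ht (mem_iUnion.2 ⟨n, hn⟩)
    have h2 : Tendsto (fun k => decide (φ k ∈ A)) atTop (𝓝 (y (A, t))) := by
      have h3 := (tendsto_pi_nhds.1 hy) (A, t)
      refine h3.congr fun k => ?_
      simp [ht']
    have h4 : ∀ᶠ k in atTop, decide (φ k ∈ A) = y (A, t) := by
      rw [nhds_discrete] at h2
      exact tendsto_pure.1 h2
    obtain ⟨N, hN⟩ := eventually_atTop.1 h4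
    have e1 : φ (2 * N) ∈ A := ⟨N, rfl⟩
    have e2 : φ (2 * N + 1) ∉ A := by
      rintro ⟨k, hk⟩
      have := hφ.injective hk
      omega
    have h5 := hN (2 * N) (by omega)
    have h6 := hN (2 * N + 1) (by omega)
    rw [← h6] at h5
    simp [e1, e2] at h5

theorem dense_sigma : Dense Sigma0 := by
  classical
  rw [dense_iff_inter_open]
  intro U hU hne
  obtain ⟨z, F, hF⟩ := exists_finite_agree hU hne
  refine ⟨fun i => if i ∈ F then z i else false, hF _ fun i hi => by simp [hi], ?_⟩
  refine (F.countable_toSet).mono ?_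
  intro i hi
  by_contra hcon
  have : i ∉ F := hcon
  simp [this] at hi

theorem seq_compact_sigma (x : ℕ → Sigma0) :
    ∃ φ : ℕ → ℕ, StrictMono φ ∧ ∃ y : Sigma0, Tendsto (x ∘ φ) atTop (𝓝 y) := by
  classical
  let C : Set I := ⋃ n, {i | (x n : Cube) i = true}
  have hC : C.Countable := countable_iUnion fun n => (x n).2
  have : Countable C := hC.to_subtype
  obtain ⟨y, -, φ, hφ, hy⟩ := (isSeqCompact_univ (X := C → Bool))
    (x := fun n (c : C) => (x n : Cube) c) (fun n => mem_univ _)
  refine ⟨φ, hφ, ⟨fun i => if h : i ∈ C then y ⟨i, h⟩ else false, ?_⟩, ?_⟩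
  · refine hC.mono ?_
    intro i hi
    by_contra hcon
    simp [hcon] at hi
  · rw [tendsto_subtype_rng, tendsto_pi_nhds]
    intro i
    by_cases hi : i ∈ C
    · have h1 := (tendsto_pi_nhds.1 hy) ⟨i, hi⟩
      simp only [hi, dif_pos]
      exact h1
    · simp only [hi, dif_neg, not_false_eq_true]
      refine tendsto_const_nhds.congr fun k => ?_
      have : (x (φ k) : Cube) i ≠ true := fun h => hi (mem_iUnion.2 ⟨φ k, h⟩)
      simp only [Function.comp]
      exact ((Bool.not_eq_true _).mp this).symm

theorem not_shd_sigma : ¬ SHD Sigma0 := by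
  intro h
  have hne : Nonempty Sigma0 := ⟨⟨fun _ => false, by simp [Sigma0]⟩⟩
  obtain ⟨x, -, hx⟩ := h (fun _ => univ) fun n => ⟨isOpen_univ, univ_nonempty⟩
  obtain ⟨φ, hφ, y, hy⟩ := seq_compact_sigma x
  exact hx φ hφ y hy

/-- SHD is not dense hereditary: there is a compact Hausdorff SHD space (the Cantor cube of weight
continuum) with a dense subspace (the `Σ`-product) which is not SHD. -/
theorem result : ∃ (X : Type) (_ : TopologicalSpace X), CompactSpace X ∧ T2Space X ∧ SHD X ∧
    ∃ D : Set X, Dense D ∧ ¬ SHD D :=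
  ⟨Cube, inferInstance, inferInstance, inferInstance, shd_cube, Sigma0, dense_sigma, not_shd_sigma⟩

end Pool.Agent.Results.MP_f0fa00_gt.SigmaInCube
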